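import Pool.Agent.N977.P.Stm

/-! The Fourier side of the packets. -/

set_option autoImplicit false

open Set Filter Topology

namespace Pool.Agent.N34.NSP

open H459R3.NS Pool.Agent.N977.Q Pool.Agent.N977.P

/-! ### the triangle functions -/

/-- the one-dimensional triangle function -/
noncomputable def t1 (J : ℕ) (a : ℤ) : ℝ := max 0 (1 - |(a : ℝ)| / J)

lemma t1_nonneg (J : ℕ) (a : ℤ) : 0 ≤ t1 J a := le_max_left _ _

lemma t1_le (J : ℕ) (a : ℤ) : t1 J a ≤ 1 := by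
  unfold t1
  refine max_le zero_le_one ?_
  have : 0 ≤ |(a : ℝ)| / J := by positivity
  linarith

lemma t1_ne {J : ℕ} (hJ : 1 ≤ J) {a : ℤ} (h : t1 J a ≠ 0) : |a| ≤ (J : ℤ) - 1 := by
  by_contra hc
  apply h
  have h1 : (J : ℤ) ≤ |a| := by omega
  have h2 : (J : ℝ) ≤ |(a : ℝ)| := by exact_mod_cast h1
  have hJ' : (0 : ℝ) < J := by exact_mod_cast hJ
  unfold t1
  rw [max_eq_left]
  rw [sub_nonpos, le_div_iff₀ hJ']
  linarith

lemma t1_pos_val {J : ℕ} (hJ : 1 ≤ J) {a : ℤ} (h : |a| ≤ (J : ℤ)) :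
    t1 J a = 1 - |(a : ℝ)| * (1 / J) := by
  have hJ' : (0 : ℝ) < J := by exact_mod_cast hJ
  have h2 : |(a : ℝ)| ≤ J := by exact_mod_cast h
  unfold t1
  rw [max_eq_right, mul_one_div]
  rw [sub_nonneg, div_le_one hJ']
  exact h2

lemma t1_neg (J : ℕ) (a : ℤ) : t1 J (-a) = t1 J a := by
  unfold t1
  push_cast
  rw [abs_neg]

lemma tr_eq (J : ℕ) (l : K3) : tr J l = if l 2 = 0 then t1 J (l 0) * t1 J (l 1) else 0 := rfl

lemma tr_nonneg (J : ℕ) (l : K3) : 0 ≤ tr J l := by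
  rw [tr_eq]
  split_ifs
  · exact mul_nonneg (t1_nonneg _ _) (t1_nonneg _ _)
  · exact le_rfl

lemma tr_le (J : ℕ) (l : K3) : tr J l ≤ 1 := by
  rw [tr_eq]
  split_ifs
  · exact mul_le_one₀ (t1_le _ _) (t1_nonneg _ _) (t1_le _ _)
  · exact zero_le_one

lemma tr_ne {J : ℕ} (hJ : 1 ≤ J) {l : K3} (h : tr J l ≠ 0) :
    l 2 = 0 ∧ |l 0| ≤ (J : ℤ) - 1 ∧ |l 1| ≤ (J : ℤ) - 1 := by
  rw [tr_eq] at h
  split_ifs at h with h2
  · exact ⟨h2, t1_ne hJ (left_ne_zero_of_mul h), t1_ne hJ (right_ne_zero_of_mul h)⟩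
  · exact absurd rfl h

lemma tr_neg (J : ℕ) (l : K3) : tr J (-l) = tr J l := by
  rw [tr_eq, tr_eq]
  simp only [Pi.neg_apply, neg_eq_zero, t1_neg]

/-! ### sums -/

lemma sum_Icc (F : ℤ → ℝ) (m : ℕ) : ∑ a ∈ Finset.Icc (-(m : ℤ)) m, F a =
    F 0 + ∑ i ∈ Finset.range m, (F ((i : ℤ) + 1) + F (-((i : ℤ) + 1))) := by
  induction m with
  | zero => simp
  | succ m ih =>
    have e : Finset.Icc (-((m + 1 : ℕ) : ℤ)) ((m + 1 : ℕ) : ℤ) =
        insert ((m : ℤ) + 1) (insert (-((m : ℤ) + 1)) (Finset.Icc (-(m : ℤ)) m)) := by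
      ext a
      simp only [Finset.mem_Icc, Finset.mem_insert]
      push_cast
      omega
    rw [e, Finset.sum_insert, Finset.sum_insert, ih, Finset.sum_range_succ]
    · ring
    · simp only [Finset.mem_Icc]
      omega
    · simp only [Finset.mem_Icc, Finset.mem_insert]
      omega

lemma t1_val {J : ℕ} (hJ : 1 ≤ J) {i : ℕ} (hi : i < J) :
    t1 J ((i : ℤ) + 1) = 1 - ((i : ℝ) + 1) * (1 / J) := by
  have h0 : |(i : ℤ) + 1| = (i : ℤ) + 1 := abs_of_nonneg (by positivity)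
  rw [t1_pos_val hJ (by rw [h0]; omega)]
  push_cast
  rw [abs_of_nonneg (by positivity)]

lemma t1_zero {J : ℕ} (hJ : 1 ≤ J) : t1 J 0 = 1 := by
  rw [t1_pos_val hJ (by simp)]
  simp

lemma sum1 {J : ℕ} (hJ : 1 ≤ J) : ∑ a ∈ Finset.Icc (-(J : ℤ)) J, t1 J a = J := by
  have hJ' : (0 : ℝ) < J := by exact_mod_cast hJ
  rw [sum_Icc, t1_zero hJ]
  have h1 : ∀ i ∈ Finset.range J, t1 J ((i : ℤ) + 1) + t1 J (-((i : ℤ) + 1)) =
      2 * (1 - ((i : ℝ) + 1) * (1 / J)) := by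
    intro i hi
    rw [t1_neg, t1_val hJ (Finset.mem_range.1 hi)]
    ring
  rw [Finset.sum_congr rfl h1]
  have h2 : ∀ (m : ℕ) (c : ℝ), ∑ i ∈ Finset.range m, 2 * (1 - ((i : ℝ) + 1) * c) =
      2 * m - c * (m * (m + 1)) := by
    intro m c
    induction m with
    | zero => simp
    | succ m ih =>
      rw [Finset.sum_range_succ, ih]
      push_cast
      ring
  rw [h2]
  field_simp
  ring

lemma sum2 {J : ℕ} (hJ : 1 ≤ J) : ∑ a ∈ Finset.Icc (-(J : ℤ)) J, t1 J a ^ 2 =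
    (2 * (J : ℝ) ^ 2 + 1) / (3 * J) := by
  have hJ' : (0 : ℝ) < J := by exact_mod_cast hJ
  rw [sum_Icc (fun a => t1 J a ^ 2), t1_zero hJ]
  have h1 : ∀ i ∈ Finset.range J, t1 J ((i : ℤ) + 1) ^ 2 + t1 J (-((i : ℤ) + 1)) ^ 2 =
      2 * (1 - ((i : ℝ) + 1) * (1 / J)) ^ 2 := by
    intro i hi
    rw [t1_neg, t1_val hJ (Finset.mem_range.1 hi)]
    ring
  rw [Finset.sum_congr rfl h1]
  have h2 : ∀ (m : ℕ) (c : ℝ), ∑ i ∈ Finset.range m, 2 * (1 - ((i : ℝ) + 1) * c) ^ 2 =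
      2 * (m - c * (m * (m + 1)) + c ^ 2 * (m * (m + 1) * (2 * m + 1) / 6)) := by
    intro m c
    induction m with
    | zero => simp
    | succ m ih =>
      rw [Finset.sum_range_succ, ih]
      push_cast
      ring
  rw [h2]
  field_simp
  ring

/-- the plane -/
def io (p : ℤ × ℤ) : K3 := ![p.1, p.2, 0]

lemma io_inj : Function.Injective io := by
  intro p q h
  have h0 := congrFun h 0
  have h1 := congrFun h 1
  simp only [io, Matrix.cons_val_zero, Matrix.cons_val_one] at h0 h1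
  exact Prod.ext h0 h1

/-- the box -/
noncomputable def Bx (J : ℕ) : Finset K3 :=
  (Finset.Icc (-(J : ℤ)) J ×ˢ Finset.Icc (-(J : ℤ)) J).image io

lemma mem_Bx {J : ℕ} (hJ : 1 ≤ J) {l : K3} (h : tr J l ≠ 0) : l ∈ Bx J := by
  obtain ⟨h2, h0, h1⟩ := tr_ne hJ h
  unfold Bx
  rw [Finset.mem_image]
  refine ⟨(l 0, l 1), ?_, ?_⟩
  · have h3 := abs_le.1 h0
    have h4 := abs_le.1 h1
    rw [Finset.mem_product, Finset.mem_Icc, Finset.mem_Icc]
    exact ⟨⟨by simp only; omega, by simp only; omega⟩, by simp only; omega, by simp only; omega⟩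
  · funext i
    fin_cases i
    · rfl
    · rfl
    · exact h2.symm

lemma tr_io (J : ℕ) (p : ℤ × ℤ) : tr J (io p) = t1 J p.1 * t1 J p.2 := by
  rw [tr_eq]
  simp [io]

lemma tsum_g {J : ℕ} (hJ : 1 ≤ J) (m : ℕ) (hm : m ≠ 0) : ∑' l : K3, tr J l ^ m =
    (∑ a ∈ Finset.Icc (-(J : ℤ)) J, t1 J a ^ m) ^ 2 := by
  rw [tsum_eq_sum (s := Bx J)]
  · unfold Bx
    rw [Finset.sum_image fun p _ q _ h => io_inj h]
    simp only [tr_io, mul_pow]
    rw [Finset.sum_product]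
    simp only
    rw [sq, Finset.sum_mul]
    refine Finset.sum_congr rfl fun a _ => ?_
    rw [Finset.mul_sum]
  · intro l hl
    have : tr J l = 0 := by
      by_contra h
      exact hl (mem_Bx hJ h)
    rw [this, zero_pow hm]

lemma tsum1 {J : ℕ} (hJ : 1 ≤ J) : ∑' l : K3, tr J l = (J : ℝ) ^ 2 := by
  have h := tsum_g hJ 1 one_ne_zero
  simp only [pow_one] at h
  rw [h, sum1 hJ]

lemma tsum2 {J : ℕ} (hJ : 1 ≤ J) : ∑' l : K3, tr J l ^ 2 =
    ((2 * (J : ℝ) ^ 2 + 1) / (3 * J)) ^ 2 := by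
  rw [tsum_g hJ 2 two_ne_zero, sum2 hJ]

lemma summ {J : ℕ} (hJ : 1 ≤ J) (m : ℕ) (hm : m ≠ 0) : Summable fun l : K3 => tr J l ^ m := by
  refine summable_of_ne_finset_zero (s := Bx J) fun l hl => ?_
  have : tr J l = 0 := by
    by_contra h
    exact hl (mem_Bx hJ h)
  rw [this, zero_pow hm]

/-! ### the normalisation -/

lemma om_pos {J : ℕ} (hJ : 1 ≤ J) : 0 < om J := by
  have hJ' : (0 : ℝ) < J := by exact_mod_cast hJ
  unfold om
  rw [tsum2 hJ]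
  positivity

lemma om_sq {J : ℕ} (hJ : 1 ≤ J) : om J ^ 2 * (2 * ∑' l : K3, tr J l ^ 2) = 1 := by
  have hJ' : (0 : ℝ) < J := by exact_mod_cast hJ
  unfold om
  have h : 0 < 2 * ∑' l : K3, tr J l ^ 2 := by
    rw [tsum2 hJ]
    positivity
  rw [div_pow, Real.sq_sqrt h.le, one_pow]
  exact one_div_mul_cancel h.ne'

lemma om_le {J : ℕ} (hJ : 1 ≤ J) : om J ≤ 3 / 2 / J := by
  have hJ' : (0 : ℝ) < J := by exact_mod_cast hJ
  unfold om
  rw [tsum2 hJ]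
  have h1 : 2 / 3 * (J : ℝ) ≤ (2 * (J : ℝ) ^ 2 + 1) / (3 * J) := by
    rw [le_div_iff₀ (by positivity)]
    nlinarith
  have h2 : 2 / 3 * (J : ℝ) ≤ √(2 * ((2 * (J : ℝ) ^ 2 + 1) / (3 * J)) ^ 2) := by
    apply Real.le_sqrt_of_sq_le
    have h3 : (2 / 3 * (J : ℝ)) ^ 2 ≤ ((2 * (J : ℝ) ^ 2 + 1) / (3 * J)) ^ 2 :=
      pow_le_pow_left₀ (by positivity) h1 2
    have h4 : 0 ≤ ((2 * (J : ℝ) ^ 2 + 1) / (3 * J)) ^ 2 := sq_nonneg _
    linarith
  calc _ ≤ 1 / (2 / 3 * (J : ℝ)) := one_div_le_one_div_of_le (by positivity) h2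
    _ = _ := by field_simp

/-! ### the packets -/

/-- the second coordinate of the directions -/
def dd (e : Fin 2) : ℤ := if e = 0 then 0 else 1

lemma qq0 (e : Fin 2) (n : ℕ) : qq e n 0 = 2 * (Mn 8 n : ℤ) := by
  fin_cases e <;> simp [qq, dv, ev, mul_comm]

lemma qq1 (e : Fin 2) (n : ℕ) : qq e n 1 = dd e * (Mn 8 n : ℤ) := by
  fin_cases e <;> simp [qq, dv, ev, dd]

lemma qq2 (e : Fin 2) (n : ℕ) : qq e n 2 = 0 := by
  fin_cases e <;> simp [qq, dv, ev]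

lemma Mn_pos (n : ℕ) : 8 ≤ Mn 8 n := by
  unfold Mn
  have : 1 ≤ 2 ^ n := Nat.one_le_two_pow
  omega

lemma Mn_lt {n n' : ℕ} (h : n < n') : 2 * Mn 8 n ≤ Mn 8 n' := by
  unfold Mn
  have h1 : 2 ^ (n + 1) ≤ 2 ^ n' := Nat.pow_le_pow_right (by norm_num) h
  rw [pow_succ] at h1
  omega

lemma supp {J : ℕ} (hJ : 1 ≤ J) (e : Fin 2) (n : ℕ) (k : K3)
    (h : tr J (k - qq e n) ≠ 0 ∨ tr J (k + qq e n) ≠ 0) :
    k 2 = 0 ∧ ((|k 0 - 2 * (Mn 8 n : ℤ)| ≤ (J : ℤ) - 1 ∧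
        |k 1 - dd e * (Mn 8 n : ℤ)| ≤ (J : ℤ) - 1) ∨
      (|k 0 + 2 * (Mn 8 n : ℤ)| ≤ (J : ℤ) - 1 ∧
        |k 1 + dd e * (Mn 8 n : ℤ)| ≤ (J : ℤ) - 1)) := by
  rcases h with h | h
  · obtain ⟨h2, h0, h1⟩ := tr_ne hJ h
    rw [Pi.sub_apply, qq2] at h2
    rw [Pi.sub_apply, qq0] at h0
    rw [Pi.sub_apply, qq1] at h1
    exact ⟨by omega, Or.inl ⟨h0, h1⟩⟩
  · obtain ⟨h2, h0, h1⟩ := tr_ne hJ h
    rw [Pi.add_apply, qq2] at h2
    rw [Pi.add_apply, qq0] at h0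
    rw [Pi.add_apply, qq1] at h1
    exact ⟨by omega, Or.inr ⟨h0, h1⟩⟩

lemma supG {e : Fin 2} {n : ℕ} {k : K3} (h : Gp e n k ≠ 0) :
    tr (Jn n) (k - qq e n) ≠ 0 ∨ tr (Jn n) (k + qq e n) ≠ 0 := by
  by_contra hc
  push Not at hc
  apply h
  unfold Gp
  rw [hc.1, hc.2]
  simp

/-- the two parts are disjoint -/
lemma prod0 {J : ℕ} (hJ : 1 ≤ J) (e : Fin 2) (n : ℕ)
    (hM : 1000 * ((J : ℤ) - 1) ≤ (Mn 8 n : ℤ)) (k : K3) :
    tr J (k - qq e n) * tr J (k + qq e n) = 0 := by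
  by_contra hc
  obtain ⟨_, h0, _⟩ := tr_ne hJ (left_ne_zero_of_mul hc)
  obtain ⟨_, h0', _⟩ := tr_ne hJ (right_ne_zero_of_mul hc)
  rw [Pi.sub_apply, qq0] at h0
  rw [Pi.add_apply, qq0] at h0'
  have h1 := abs_le.1 h0
  have h2 := abs_le.1 h0'
  have h3 := Mn_pos n
  omega

lemma near_aux (m j x y d : ℝ) (hj : 0 ≤ j) (hm : 1000 * j ≤ m) (hx : |x| ≤ j) (hy : |y| ≤ j)
    (hd : |d| ≤ 1) :
    |(2 * m + x) ^ 2 + (d * m + y) ^ 2 - ((2 * m) ^ 2 + (d * m) ^ 2)| ≤ 7 * (m * j) := by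
  have e : (2 * m + x) ^ 2 + (d * m + y) ^ 2 - ((2 * m) ^ 2 + (d * m) ^ 2) =
      x * (4 * m + x) + y * (2 * (d * m) + y) := by ring
  have hm0 : 0 ≤ m := by linarith
  rw [e]
  have h1 : |4 * m + x| ≤ 4 * m + j := by
    refine (abs_add_le _ _).trans ?_
    rw [abs_of_nonneg (by linarith : 0 ≤ 4 * m)]
    linarith
  have h2 : |2 * (d * m) + y| ≤ 2 * m + j := by
    refine (abs_add_le _ _).trans ?_
    rw [abs_mul, abs_mul, abs_of_nonneg hm0, abs_two]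
    have : |d| * m ≤ 1 * m := mul_le_mul_of_nonneg_right hd hm0
    linarith
  refine (abs_add_le _ _).trans ?_
  rw [abs_mul, abs_mul]
  have h3 : |x| * |4 * m + x| ≤ j * (4 * m + j) := mul_le_mul hx h1 (abs_nonneg _) hj
  have h4 : |y| * |2 * (d * m) + y| ≤ j * (2 * m + j) := mul_le_mul hy h2 (abs_nonneg _) hj
  have h5 : 1000 * (j * j) ≤ m * j := by nlinarith
  nlinarith

lemma len_sq (k : K3) : len k ^ 2 = (k 0 : ℝ) ^ 2 + (k 1 : ℝ) ^ 2 + (k 2 : ℝ) ^ 2 := by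
  unfold len
  rw [Real.sq_sqrt (Finset.sum_nonneg fun _ _ => sq_nonneg _), Fin.sum_univ_three]

lemma shift_sub (J : ℕ) (q : K3) (m : ℕ) :
    ∑' k : K3, tr J (k - q) ^ m = ∑' l : K3, tr J l ^ m :=
  (Equiv.subRight q).tsum_eq (fun l => tr J l ^ m)

lemma shift_add (J : ℕ) (q : K3) (m : ℕ) :
    ∑' k : K3, tr J (k + q) ^ m = ∑' l : K3, tr J l ^ m :=
  (Equiv.addRight q).tsum_eq (fun l => tr J l ^ m)

lemma summ_sub {J : ℕ} (hJ : 1 ≤ J) (q : K3) (m : ℕ) (hm : m ≠ 0) :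
    Summable fun k : K3 => tr J (k - q) ^ m :=
  ((Equiv.subRight q).summable_iff (f := fun l : K3 => tr J l ^ m)).2 (summ hJ m hm)

lemma summ_add {J : ℕ} (hJ : 1 ≤ J) (q : K3) (m : ℕ) (hm : m ≠ 0) :
    Summable fun k : K3 => tr J (k + q) ^ m :=
  ((Equiv.addRight q).summable_iff (f := fun l : K3 => tr J l ^ m)).2 (summ hJ m hm)

theorem pk1 : S_PK1 := by
  intro hJp
  have hJ := hJp.J1
  have hM : ∀ n, 1000 * ((Jn n : ℤ) - 1) ≤ (Mn 8 n : ℤ) := by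
    intro n
    exact_mod_cast hJp.J2 n
  have hnn : ∀ e n k, 0 ≤ Gp e n k := fun e n k =>
    mul_nonneg (om_pos (hJ n)).le (add_nonneg (tr_nonneg _ _) (tr_nonneg _ _))
  refine ⟨?_, ?_, ?_, ?_, ?_, ?_, ?_, ?_⟩
  · intro e n k
    unfold Gp
    have e1 : -k - qq e n = -(k + qq e n) := by abel
    have e2 : -k + qq e n = -(k - qq e n) := by abel
    rw [e1, e2, tr_neg, tr_neg, add_comm]
  · intro e n
    refine Set.Finite.subset (((Bx (Jn n)).finite_toSet.image (fun l => l + qq e n)).union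
      ((Bx (Jn n)).finite_toSet.image (fun l => l - qq e n))) ?_
    intro k hk
    rcases supG hk with h | h
    · exact Or.inl ⟨k - qq e n, mem_Bx (hJ n) h, by simp⟩
    · exact Or.inr ⟨k + qq e n, mem_Bx (hJ n) h, by simp⟩
  · intro e n k hk
    exact (supp (hJ n) e n k (supG hk)).1
  · intro e n k hk
    obtain ⟨h2, h⟩ := supp (hJ n) e n k (supG hk)
    rw [len_sq, len_sq, qq0, qq1, qq2, h2]
    have hj0 : (0 : ℝ) ≤ (Jn n : ℝ) - 1 := by
      have : (1 : ℝ) ≤ Jn n := by exact_mod_cast hJ n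
      linarith
    have hd : |(dd e : ℝ)| ≤ 1 := by
      unfold dd
      split_ifs <;> simp
    rcases h with ⟨h0, h1⟩ | ⟨h0, h1⟩
    · have h0' : |(k 0 : ℝ) - 2 * (Mn 8 n : ℝ)| ≤ (Jn n : ℝ) - 1 := by exact_mod_cast h0
      have h1' : |(k 1 : ℝ) - dd e * (Mn 8 n : ℝ)| ≤ (Jn n : ℝ) - 1 := by exact_mod_cast h1
      have key := near_aux (Mn 8 n) ((Jn n : ℝ) - 1) _ _ (dd e) hj0 (hJp.J2 n) h0' h1' hd
      refine le_trans (le_of_eq ?_) key
      push_cast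
      congr 1
      ring
    · have h0' : |-((k 0 : ℝ) + 2 * (Mn 8 n : ℝ))| ≤ (Jn n : ℝ) - 1 := by
        rw [abs_neg]
        exact_mod_cast h0
      have h1' : |-((k 1 : ℝ) + dd e * (Mn 8 n : ℝ))| ≤ (Jn n : ℝ) - 1 := by
        rw [abs_neg]
        exact_mod_cast h1
      have key := near_aux (Mn 8 n) ((Jn n : ℝ) - 1) _ _ (dd e) hj0 (hJp.J2 n) h0' h1' hd
      refine le_trans (le_of_eq ?_) key
      push_cast
      congr 1
      ring
  · intro e n e' n' k hk hk'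
    obtain ⟨_, h⟩ := supp (hJ n) e n k (supG hk)
    obtain ⟨_, h'⟩ := supp (hJ n') e' n' k (supG hk')
    simp only [abs_le] at h h'
    have hM1 := hM n
    have hM2 := hM n'
    have hp1 := Mn_pos n
    have hp2 := Mn_pos n'
    have hn : n = n' := by
      rcases lt_trichotomy n n' with h3 | h3 | h3
      · have := Mn_lt h3
        omega
      · exact h3
      · have := Mn_lt h3
        omega
    subst hn
    refine ⟨?_, rfl⟩
    by_contra hne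
    have hcases : (dd e = 0 ∧ dd e' = 1) ∨ (dd e = 1 ∧ dd e' = 0) := by
      fin_cases e <;> fin_cases e' <;> simp_all [dd]
    rcases hcases with ⟨h3, h4⟩ | ⟨h3, h4⟩
    · rw [h3] at h
      rw [h4] at h'
      omega
    · rw [h3] at h
      rw [h4] at h'
      omega
  · intro e n
    have h1 : (fun k => Gp e n k ^ 2) = fun k => om (Jn n) ^ 2 *
        (tr (Jn n) (k - qq e n) ^ 2 + tr (Jn n) (k + qq e n) ^ 2) := by
      funext k
      unfold Gp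
      linear_combination 2 * om (Jn n) ^ 2 * prod0 (hJ n) e n (hM n) k
    rw [h1, tsum_mul_left, (summ_sub (hJ n) (qq e n) 2 two_ne_zero).tsum_add
      (summ_add (hJ n) (qq e n) 2 two_ne_zero), shift_sub, shift_add, ← two_mul]
    exact om_sq (hJ n)
  · intro e n
    have h1 : (fun k => |Gp e n k|) = fun k => om (Jn n) *
        (tr (Jn n) (k - qq e n) ^ 1 + tr (Jn n) (k + qq e n) ^ 1) := by
      funext k
      rw [abs_of_nonneg (hnn e n k), pow_one, pow_one]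
      rfl
    have hJ' : (0 : ℝ) < Jn n := by exact_mod_cast hJ n
    rw [h1, tsum_mul_left, (summ_sub (hJ n) (qq e n) 1 one_ne_zero).tsum_add
      (summ_add (hJ n) (qq e n) 1 one_ne_zero), shift_sub, shift_add]
    simp only [pow_one]
    rw [tsum1 (hJ n)]
    calc om (Jn n) * ((Jn n : ℝ) ^ 2 + (Jn n : ℝ) ^ 2) ≤
          3 / 2 / Jn n * ((Jn n : ℝ) ^ 2 + (Jn n : ℝ) ^ 2) :=
          mul_le_mul_of_nonneg_right (om_le (hJ n)) (by positivity)
      _ = 3 * Jn n := by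
        field_simp
        ring
  · intro e n k
    rw [abs_of_nonneg (hnn e n k)]
    have hJ' : (0 : ℝ) < Jn n := by exact_mod_cast hJ n
    have h0 := prod0 (hJ n) e n (hM n) k
    have h1 : tr (Jn n) (k - qq e n) + tr (Jn n) (k + qq e n) ≤ 1 := by
      rcases mul_eq_zero.1 h0 with h | h
      · rw [h, zero_add]
        exact tr_le _ _
      · rw [h, add_zero]
        exact tr_le _ _
    unfold Gp
    calc om (Jn n) * (tr (Jn n) (k - qq e n) + tr (Jn n) (k + qq e n)) ≤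
          3 / 2 / Jn n * 1 := mul_le_mul (om_le (hJ n)) h1
            (add_nonneg (tr_nonneg _ _) (tr_nonneg _ _)) (by positivity)
      _ ≤ 2 / Jn n := by
        rw [mul_one]
        gcongr
        norm_num

end Pool.Agent.N34.NSP
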